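import Pool.Agent.Q203.BPBFail

/-!
# The Bishop-Phelps-Bollobas property does not pass to one-complemented subspaces of the range
-/

namespace Pool.Agent.Results.MP_7aa09c_an.BPBpFails

open Pool.Agent.Q203.BPB Pool.Agent.Q203.BetaExt Pool.Agent.Q203.BPBFail

/-- There are real Banach spaces `X`, `Y` and a one-complemented subspace `Y₁` of `Y` such that
`(X, Y)` has the Bishop-Phelps-Bollobas property but `(X, Y₁)` does not. -/
theorem result : ∃ (X Y : Type) (_ : NormedAddCommGroup X) (_ : NormedSpace ℝ X)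
    (_ : CompleteSpace X) (_ : NormedAddCommGroup Y) (_ : NormedSpace ℝ Y) (_ : CompleteSpace Y)
    (Y₁ : Submodule ℝ Y), OneComplemented Y₁ ∧ BPBp X Y ∧ ¬ BPBp X Y₁ := by
  obtain ⟨Y, i1, i2, i3, Y₁, I, h1, ⟨b⟩, ⟨e⟩⟩ := exists_ext ZZ
  have h2 : ¬ BPBp X1 Y₁ := fun h' => not_bpbp_X1 (bpbp_transfer e h')
  have h3 : BPBp X1 Y := b.bpbp functional_bpb
  exact ⟨X1, Y, _, _, inferInstance, _, _, i3, Y₁, h1, h3, h2⟩

end Pool.Agent.Results.MP_7aa09c_an.BPBpFails
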